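import Pool.Agent.helper37.NE.SpecB
import Pool.Agent.helper34.NE.YLN
import Pool.Agent.helper53.NE.YGR

/-! MP_baa4d7_al, project NE, row YDF: the defect groups for an extension of index prime to `p`. -/

set_option autoImplicit false

namespace Pool.Agent.NE

open Pool.Agent.helper58.DC Pool.Agent.DI Pool.Agent.GR Pool.Agent.OB Pool.Agent.DR Pool.Agent.FI Pool.Agent.FI3 Pool.Agent.FI4 Pool.Agent.FI4I Pool.Agent.LE Pool.Agent.L5 Pool.Agent.NAB Pool.Agent.ND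

section

variable {G : Type} [Group G]

open Classical in
/-- Multiplication by a linear character of the subgroup `H`. -/
noncomputable def YDF_sh (H : Subgroup G) (l : H →* ℂˣ) (φ : G → ℂ) : G → ℂ :=
  fun x => if h : x ∈ H then ((l ⟨x, h⟩ : ℂˣ) : ℂ) * φ x else 0

theorem YDF_sh_in (H : Subgroup G) (l : H →* ℂˣ) (φ : G → ℂ) {x : G} (h : x ∈ H) :
    YDF_sh H l φ x = ((l ⟨x, h⟩ : ℂˣ) : ℂ) * φ x := dif_pos h

theorem YDF_sh_out (H : Subgroup G) (l : H →* ℂˣ) (φ : G → ℂ) {x : G} (h : x ∉ H) :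
    YDF_sh H l φ x = 0 := dif_neg h

theorem YDF_sh_one (H : Subgroup G) (l : H →* ℂˣ) (φ : G → ℂ) : YDF_sh H l φ 1 = φ 1 := by
  rw [YDF_sh_in H l φ H.one_mem]
  have h1 : l ⟨1, H.one_mem⟩ = 1 := map_one l
  rw [h1, Units.val_one, one_mul]

theorem YDF_sh_irr (hB6 : B6_stmt) [Finite G] (H : Subgroup G) (l : H →* ℂˣ) {φ : G → ℂ} (hφ : φ ∈ IrrOn H) :
    YDF_sh H l φ ∈ IrrOn H := by
  refine ⟨fun g hg => YDF_sh_out H l φ hg, ?_⟩
  have h1 := hB6 H _ hφ.2 l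
  have e : (fun x : H => ((l x : ℂˣ) : ℂ) * (fun h : H => φ (h : G)) x) = fun h : H => YDF_sh H l φ (h : G) := by
    funext h
    rw [YDF_sh_in H l φ h.2]
  rw [e] at h1
  exact h1

theorem YDF_sh_mul (H : Subgroup G) (l l' : H →* ℂˣ) (φ : G → ℂ) :
    YDF_sh H (l * l') φ = YDF_sh H l (YDF_sh H l' φ) := by
  funext x
  by_cases h : x ∈ H
  · rw [YDF_sh_in H _ φ h, YDF_sh_in H _ _ h, YDF_sh_in H _ φ h, MonoidHom.mul_apply, Units.val_mul, mul_assoc]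
  · rw [YDF_sh_out H _ φ h, YDF_sh_out H _ _ h]

theorem YDF_sh_id (H : Subgroup G) (φ : G → ℂ) (hφ : ∀ x, x ∉ H → φ x = 0) : YDF_sh H 1 φ = φ := by
  funext x
  by_cases h : x ∈ H
  · rw [YDF_sh_in H _ φ h, MonoidHom.one_apply, Units.val_one, one_mul]
  · rw [YDF_sh_out H _ φ h, hφ x h]

theorem YDF_cc (H : Subgroup G) (l : H →* ℂˣ) (φ z : G → ℂ) : cc (YDF_sh H l φ) z = cc φ (YDF_sh H l z) := by
  unfold cc
  rw [YDF_sh_one]
  congr 1
  refine finsum_congr fun x => ?_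
  by_cases h : x ∈ H
  · rw [YDF_sh_in H _ _ h, YDF_sh_in H _ _ h]
    ring
  · rw [YDF_sh_out H _ _ h, YDF_sh_out H _ _ h, mul_zero, zero_mul]

theorem YDF_CF (H : Subgroup G) (l : H →* ℂˣ) {z : G → ℂ} (hz : CF H z) : CF H (YDF_sh H l z) := by
  refine ⟨fun h hh x => ?_, fun x hx => YDF_sh_out H l z hx⟩
  by_cases hx : x ∈ H
  · have h1 : h * x * h⁻¹ ∈ H := H.mul_mem (H.mul_mem hh hx) (H.inv_mem hh)
    rw [YDF_sh_in H _ _ h1, YDF_sh_in H _ _ hx, hz.1 h hh x]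
    have h2 : (⟨h * x * h⁻¹, h1⟩ : H) = ⟨h, hh⟩ * ⟨x, hx⟩ * ⟨h, hh⟩⁻¹ := rfl
    rw [h2, map_mul, map_mul, map_inv, mul_comm (l ⟨h, hh⟩), mul_assoc, mul_inv_cancel, mul_one]
  · have h1 : h * x * h⁻¹ ∉ H := by
      intro h2
      apply hx
      have h3 := H.mul_mem (H.mul_mem (H.inv_mem hh) h2) hh
      have e : h⁻¹ * (h * x * h⁻¹) * h = x := by group
      rwa [e] at h3
    rw [YDF_sh_out H _ _ h1, YDF_sh_out H _ _ hx]

theorem YDF_int [Finite G] (H : Subgroup G) (l : H →* ℂˣ) {z : G → ℂ} (hz : ∀ x, IsIntegral ℤ (z x)) (x : G) :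
    IsIntegral ℤ (YDF_sh H l z x) := by
  by_cases hx : x ∈ H
  · rw [YDF_sh_in H _ _ hx]
    refine IsIntegral.mul ?_ (hz x)
    have hc : 0 < Nat.card H := Nat.card_pos
    refine IsIntegral.of_pow hc ?_
    have h1 : ((l ⟨x, hx⟩ : ℂˣ) : ℂ) ^ Nat.card H = 1 := by
      rw [← Units.val_pow_eq_pow_val, ← map_pow, pow_card_eq_one', map_one, Units.val_one]
    rw [h1]
    exact isIntegral_one
  · rw [YDF_sh_out H _ _ hx]
    exact isIntegral_zero

theorem YDF_SB [Finite G] (M : Ideal (integralClosure ℤ ℂ)) (H : Subgroup G) (l : H →* ℂˣ) {φ ψ : G → ℂ}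
    (h : SB M H φ ψ) : SB M H (YDF_sh H l φ) (YDF_sh H l ψ) := by
  intro z hz hi
  rw [YDF_cc, YDF_cc]
  exact h _ (YDF_CF H l hz) (YDF_int H l hi)

/-- The stabiliser of the block in the group of linear characters. -/
def YDF_A [Finite G] (M : Ideal (integralClosure ℤ ℂ)) (H : Subgroup G) {Λ : Type} [CommGroup Λ] (l : Λ →* (H →* ℂˣ))
    (φ : G → ℂ) (hφ : ∀ x, x ∉ H → φ x = 0) : Subgroup Λ where
  carrier := {a | SB M H (YDF_sh H (l a) φ) φ}
  mul_mem' := by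
    intro a b ha hb
    show SB M H (YDF_sh H (l (a * b)) φ) φ
    rw [map_mul, YDF_sh_mul]
    exact (YDF_SB M H (l a) hb).trans ha
  one_mem' := by
    show SB M H (YDF_sh H (l 1) φ) φ
    rw [map_one, YDF_sh_id H φ hφ]
    exact SB.refl _ _
  inv_mem' := by
    intro a ha
    show SB M H (YDF_sh H (l a⁻¹) φ) φ
    have h1 := YDF_SB M H (l a⁻¹) ha
    rw [← YDF_sh_mul, ← map_mul, inv_mul_cancel, map_one, YDF_sh_id H φ hφ] at h1
    exact h1.symm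

end

open Classical in
/-- the central character of `θ` and of `θ'` on an invariant function supported on `C` -/
theorem YDF_two (hYCL : YCL_stmt) (hB2 : DI.B2_stmt) (hEXP : EXP_stmt) {G : Type} [Group G] [Finite G] (C : Subgroup G) (s : G)
    (hs : s ∈ nz C) (θ : G → ℂ) (hθ : θ ∈ IrrOn C) (θ' : G → ℂ) (hθ' : θ' ∈ IrrOn (C ⊔ Subgroup.zpowers s))
    (hm : Pool.Agent.FI.mt C θ' θ ≠ 0) (f : G → ℂ) (hf : ∀ h ∈ C ⊔ Subgroup.zpowers s, ∀ x, f (h * x * h⁻¹) = f x)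
    (hf0 : ∀ x, x ∉ C → f x = 0) : cc θ f = cc θ' f := by
  cases nonempty_fintype G
  obtain ⟨C', hC'⟩ : ∃ C' : Subgroup G, C' = C ⊔ Subgroup.zpowers s := ⟨_, rfl⟩
  have hCC' : C ≤ C' := by rw [hC']; exact le_sup_left
  have hsC' : s ∈ C' := by rw [hC']; exact Subgroup.mem_sup_right (Subgroup.mem_zpowers s)
  obtain ⟨-, -, -, c4⟩ := hYCL G C s hs
  rw [← hC'] at hθ' hf c4
  have hB := (hB2 G C).2
  have hB' := (hB2 G C').2 θ' hθ'
  have hex := YGR_exp hB2 hEXP C θ' (fun h hh x => hB'.2.1 x h (hCC' hh))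
  set F := (hB2 G C).1.toFinset with hF
  have hFm : ∀ ψ, ψ ∈ F ↔ ψ ∈ IrrOn C := fun ψ => by rw [hF, Set.Finite.mem_toFinset]
  obtain ⟨n', hn'0, hn', -⟩ := hB'.1
  have h1' : θ' 1 ≠ 0 := by
    rw [hn']
    exact_mod_cast hn'0.ne'
  have hccf : ∀ ψ : G → ℂ, ψ ∈ IrrOn C → ∑ x : G, f x * ψ x = ψ 1 * cc ψ f := by
    intro ψ hψ
    obtain ⟨n, hn0, hn, -⟩ := (hB ψ hψ).1
    have h1 : ψ 1 ≠ 0 := by
      rw [hn]
      exact_mod_cast hn0.ne'
    unfold cc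
    rw [finsum_eq_sum_of_fintype, mul_div_cancel₀ _ h1]
  have hcj : ∀ ψ : G → ℂ, ψ ∈ IrrOn C → Pool.Agent.FI.mt C θ' ψ ≠ 0 → cc ψ f = cc θ f := by
    intro ψ hψ hmψ
    obtain ⟨k, hk⟩ := (c4 θ' hθ' θ hθ ψ hψ hm).1 hmψ
    rw [hk, cc_funMap]
    congr 1
    funext x
    exact hf (s ^ k) (C'.pow_mem hsC' k) x
  have e1 : ∑ x : G, f x * θ' x = cc θ f * θ' 1 := by
    calc ∑ x : G, f x * θ' x = ∑ x : G, f x * ∑ ψ ∈ F, Pool.Agent.FI.mt C θ' ψ * ψ x := by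
          refine Finset.sum_congr rfl fun x _ => ?_
          by_cases hx : x ∈ C
          · rw [← hex x hx]
          · rw [hf0 x hx, zero_mul, zero_mul]
      _ = ∑ ψ ∈ F, Pool.Agent.FI.mt C θ' ψ * ∑ x : G, f x * ψ x := by
          simp only [Finset.mul_sum]
          rw [Finset.sum_comm]
          refine Finset.sum_congr rfl fun ψ _ => Finset.sum_congr rfl fun x _ => ?_
          ring
      _ = ∑ ψ ∈ F, Pool.Agent.FI.mt C θ' ψ * (ψ 1 * cc θ f) := by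
          refine Finset.sum_congr rfl fun ψ hψ => ?_
          rw [hccf ψ ((hFm ψ).1 hψ)]
          by_cases hmψ : Pool.Agent.FI.mt C θ' ψ = 0
          · rw [hmψ, zero_mul, zero_mul]
          · rw [hcj ψ ((hFm ψ).1 hψ) hmψ]
      _ = cc θ f * ∑ ψ ∈ F, Pool.Agent.FI.mt C θ' ψ * ψ 1 := by
          rw [Finset.mul_sum]
          refine Finset.sum_congr rfl fun ψ _ => ?_
          ring
      _ = cc θ f * θ' 1 := by
          rw [← hex 1 C.one_mem]
  have e2 : cc θ' f = (∑ x : G, f x * θ' x) / θ' 1 := by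
    unfold cc
    rw [finsum_eq_sum_of_fintype]
  rw [e2, e1, mul_div_cancel_right₀ _ h1']

/-- **Row YDF** -/
theorem YDF (hYCL : YCL_stmt) (hYIX : YIX_stmt) (hDUN : DUN_stmt) (hDCM : DCM_stmt) (hSBI : SBI_stmt) (hCLS : CLS_stmt)
    (hEIN : EIN_stmt) (hIDM : IDM_stmt) (hEXP : EXP_stmt) (hB2 : DI.B2_stmt) (hB5 : B5_stmt) (hB6 : B6_stmt) : YDF_stmt := by
  classical
  intro p M hS G _ _ C s hs hpel θ hθ θ' hθ' hm R hRC hR η₀ hη₀ hSB D y hD
  cases nonempty_fintype G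
  obtain ⟨C', hC'⟩ : ∃ C' : Subgroup G, C' = C ⊔ Subgroup.zpowers s := ⟨_, rfl⟩
  have hCC' : C ≤ C' := by rw [hC']; exact le_sup_left
  have hsC' : s ∈ C' := by rw [hC']; exact Subgroup.mem_sup_right (Subgroup.mem_zpowers s)
  have hnC' : C' ≤ nz C := by
    rw [hC']
    refine sup_le Subgroup.le_normalizer ?_
    rw [Subgroup.zpowers_le]
    exact hs
  have htwo := YDF_two hYCL hB2 hEXP C s hs θ hθ θ' hθ' hm
  have hcyc : CycQ (C.subgroupOf C') := by rw [hC']; exact YLN_cyc hs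
  rw [← hC'] at hpel hθ' hD htwo ⊢
  -- the block idempotent
  have hsub : Bl M C' θ' ⊆ IrrOn C' := fun ψ h => h.1
  have hBC : BC M C' (Bl M C' θ') := by
    refine ⟨hsub, ?_⟩
    intro ψ hψ ψ' hψ' h
    have h1 : SB M C' ψ ψ' := h
    exact ⟨hψ', h1.symm.trans hψ.2⟩
  have hE0 := hEIN p M hS G C' (Bl M C' θ') hBC
  obtain ⟨hCF, hccE, -, -⟩ := hIDM G C' (Bl M C' θ') hsub
  obtain ⟨E, hE⟩ : ∃ E : G → ℂ, E = eS C' (Bl M C' θ') := ⟨_, rfl⟩
  rw [← hE] at hE0 hCF hccE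
  obtain ⟨f, hfdef⟩ : ∃ f : G → ℂ, f = fun x => if x ∈ C then E x else 0 := ⟨_, rfl⟩
  have hfin : ∀ x ∈ C, f x = E x := fun x hx => by rw [hfdef]; exact if_pos hx
  have hfout : ∀ x, x ∉ C → f x = 0 := fun x hx => by rw [hfdef]; exact if_neg hx
  have hfinv : ∀ h ∈ C', ∀ x, f (h * x * h⁻¹) = f x := by
    intro h hh x
    have h1 : x ∈ C ↔ h * x * h⁻¹ ∈ C := Subgroup.mem_normalizer_iff.1 (hnC' hh) x
    by_cases hx : x ∈ C
    · rw [hfin x hx, hfin _ (h1.1 hx), hCF.1 h hh x]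
    · rw [hfout x hx, hfout _ (fun h2 => hx (h1.2 h2))]
  have hfint : ∀ x, IntAt M (f x) := by
    intro x
    by_cases hx : x ∈ C
    · rw [hfin x hx]
      exact hE0 x
    · rw [hfout x hx]
      exact IntAt.zero hS
  -- the linear characters
  obtain ⟨Λ, _, _, l, -, hcard, hl1, hl0⟩ := hB5 C' (C.subgroupOf C') hcyc
  have hKC : Nat.card (C.subgroupOf C') = Nat.card C := Nat.card_congr (Subgroup.subgroupOfEquivOfLe hCC').toEquiv
  obtain ⟨k, hpk, hk⟩ := hYIX p hS.pr G C C' hCC' hpel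
  have hCpos : 0 < Nat.card C := Nat.card_pos
  have hΛk : Nat.card Λ = k := by
    rw [hKC, hk, mul_comm] at hcard
    exact Nat.eq_of_mul_eq_mul_left hCpos hcard
  have hAk : Nat.card (YDF_A M C' l θ' hθ'.1) ∣ k := by
    rw [← hΛk]
    exact Subgroup.card_subgroup_dvd_card _
  have hpA : ¬ p ∣ Nat.card (YDF_A M C' l θ' hθ'.1) := fun h => hpk (h.trans hAk)
  have hFΛ := Fintype.ofFinite Λ
  obtain ⟨n', hn'0, hn', -⟩ := ((hB2 G C').2 θ' hθ').1
  have h1' : θ' 1 ≠ 0 := by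
    rw [hn']
    exact_mod_cast hn'0.ne'
  have hval : (Nat.card Λ : ℂ) * cc θ' f = Nat.card (YDF_A M C' l θ' hθ'.1) := by
    have e1 : ∀ x : G, ∑ a : Λ, E x * YDF_sh C' (l a) θ' x = Nat.card Λ * (f x * θ' x) := by
      intro x
      by_cases hx' : x ∈ C'
      · by_cases hx : x ∈ C
        · have h2 : ∀ a : Λ, E x * YDF_sh C' (l a) θ' x = f x * θ' x := by
            intro a
            rw [YDF_sh_in C' _ _ hx', hl1 a ⟨x, hx'⟩ (Subgroup.mem_subgroupOf.2 hx), Units.val_one, one_mul, hfin x hx]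
          rw [Finset.sum_congr rfl fun a _ => h2 a, Finset.sum_const, nsmul_eq_mul, Finset.card_univ, Nat.card_eq_fintype_card]
        · have h2 := hl0 ⟨x, hx'⟩ (fun h => hx (Subgroup.mem_subgroupOf.1 h))
          rw [finsum_eq_sum_of_fintype] at h2
          have h3 : ∑ a : Λ, E x * YDF_sh C' (l a) θ' x = (∑ a : Λ, ((l a ⟨x, hx'⟩ : ℂˣ) : ℂ)) * (E x * θ' x) := by
            rw [Finset.sum_mul]
            refine Finset.sum_congr rfl fun a _ => ?_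
            rw [YDF_sh_in C' _ _ hx']
            ring
          rw [h3, h2, hfout x hx, zero_mul, zero_mul, mul_zero]
      · have h2 : ∀ a : Λ, E x * YDF_sh C' (l a) θ' x = 0 := by
          intro a
          rw [YDF_sh_out C' _ _ hx', mul_zero]
        rw [Finset.sum_congr rfl fun a _ => h2 a, Finset.sum_const_zero, hθ'.1 x hx', mul_zero, mul_zero]
    have e2 : ∀ a : Λ, ∑ x : G, E x * YDF_sh C' (l a) θ' x = θ' 1 * (if a ∈ YDF_A M C' l θ' hθ'.1 then 1 else 0) := by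
      intro a
      have h2 := hccE _ (YDF_sh_irr hB6 C' (l a) hθ')
      have h3 : cc (YDF_sh C' (l a) θ') E = (∑ x : G, E x * YDF_sh C' (l a) θ' x) / θ' 1 := by
        unfold cc
        rw [finsum_eq_sum_of_fintype, YDF_sh_one]
      have h4 : (YDF_sh C' (l a) θ' ∈ Bl M C' θ') ↔ a ∈ YDF_A M C' l θ' hθ'.1 :=
        ⟨fun h => h.2, fun h => ⟨YDF_sh_irr hB6 C' (l a) hθ', h⟩⟩
      rw [h3] at h2
      rw [div_eq_iff h1'] at h2
      rw [h2, mul_comm]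
      congr 1
      by_cases h5 : a ∈ YDF_A M C' l θ' hθ'.1
      · rw [if_pos h5, if_pos (h4.2 h5)]
      · rw [if_neg h5, if_neg (fun h => h5 (h4.1 h))]
    have e3 : (Nat.card Λ : ℂ) * ∑ x : G, f x * θ' x = θ' 1 * Nat.card (YDF_A M C' l θ' hθ'.1) := by
      rw [Finset.mul_sum, ← Finset.sum_congr rfl fun x _ => e1 x, Finset.sum_comm, Finset.sum_congr rfl fun a _ => e2 a,
        ← Finset.mul_sum, Finset.sum_boole]
      congr 2
      rw [Nat.card_eq_fintype_card, Fintype.card_subtype]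
    have e4 : cc θ' f = (∑ x : G, f x * θ' x) / θ' 1 := by
      unfold cc
      rw [finsum_eq_sum_of_fintype]
    rw [e4, ← mul_div_assoc, e3, mul_div_cancel_left₀ _ h1']
  have hnot : ¬ InM M (cc θ f) := by
    intro h
    rw [htwo f hfinv hfout] at h
    have h2 := InM.mul_left hS (IntAt.natCast hS (Nat.card Λ)) h
    rw [hval, InM.natCast hS] at h2
    exact hpA h2
  have hCFf : CF C f := ⟨fun h hh x => hfinv h (hCC' hh) x, hfout⟩
  have hnot0 : ¬ InM M (cc η₀ f) := by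
    intro h
    apply hnot
    have h2 := (hSBI p M hS G C η₀ θ hSB).1 f hCFf hfint
    have h3 := InM.sub hS h h2
    have h4 : cc η₀ f - (cc η₀ f - cc θ f) = cc θ f := by ring
    rwa [h4] at h3
  obtain ⟨v, hv, hvE⟩ : ∃ v ∈ C ⊓ cz R, ¬ InM M (E v) := by
    by_contra hno
    push Not at hno
    apply hnot0
    obtain ⟨hd1, -⟩ := hDCM G (C ⊓ cz R) M p hS
    obtain ⟨-, h5⟩ := hd1 η₀ f (fun h hh x => hfinv h (hCC' (Subgroup.mem_inf.1 hh).1) x) hfint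
      (fun x => IntAt.of_isIntegral hS ((hCLS G (C ⊓ cz R) x).2.2.2.2.2.2.2.2 (C ⊓ cz R) le_rfl η₀ hη₀))
    refine h5 fun x => ?_
    by_cases hx : x ∈ C ⊓ cz R
    · left
      rw [hfin x (Subgroup.mem_inf.1 hx).1]
      exact hno x hx
    · right
      rw [(hCLS G (C ⊓ cz R) x).2.2.2.2.2.2.1 η₀ hη₀.1 hx]
      exact InM.zero hS
  rw [Subgroup.mem_inf] at hv
  rw [hE] at hvE
  refine (hDUN p M hS G C' θ' hθ' D y hD).2.2 v (hCC' hv.1) hvE R hR ?_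
  intro r hr
  refine Subgroup.mem_inf.2 ⟨hCC' (hRC hr), ?_⟩
  rw [Subgroup.mem_centralizer_iff]
  intro a ha
  rw [Set.mem_singleton_iff] at ha
  rw [ha]
  exact ((Subgroup.mem_centralizer_iff.1 hv.2) r hr).symm

end Pool.Agent.NE
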